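import Mathlib
import Pool.Agent.Y670.KC.Main
import Pool.Agent.Y592.KC.FIN
import Pool.Agent.Y970.KC.MOD
import Pool.Agent.Y633.KC.COPY
import Pool.Agent.Y901.KC.LOW
import Pool.Agent.Y235.KC.UPP
import Pool.Agent.Y688.KC.ELEM
import Pool.Agent.Y346.KC.SIMPLE

set_option autoImplicit false

namespace Pool.Agent.Results.MP_0054e7_lc.AllFiniteDimensions

open Pool.Agent.Helper941.Dim Pool.Agent.Y670.KC
open Pool.Agent.Helper750.UC (ThN BinL BinRel categorical_of_finite)

/-- For every `n ≥ 2` there is a computable structure `A` (universe `ℕ`, binary relations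
`r 0, r 1, ...`, each of them finite) such that the complete theory `T` of `A` is categorical in
every uncountable cardinality, and the countable models of `T` have the following dimensions.

The countable models of `T` are, up to isomorphism, exactly the structures `addFin m A`
(`A` together with `m` isolated points, `m ∈ ℕ`) and `addInf A` (`A` together with infinitely many
isolated points); `A = addFin 0 A` is embedded elementarily into each of them, so `A` is the prime
model of `T` (and `addInf A` the saturated one). All the models `addFin m A` have computable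
dimension exactly `n`, the model `addInf A` has infinite dimension (`ℵ₀`). -/
theorem result : ∀ n : ℕ, 2 ≤ n → ∃ A : Str, IsComp A ∧ FinRel A ∧
    -- the complete theory of `A` is uncountably categorical
    (∀ κ : Cardinal.{0}, Cardinal.aleph0 < κ → κ.Categorical (ThN A)) ∧
    -- the dimensions
    compDim A = n ∧ (∀ m : ℕ, compDim (addFin m A) = n) ∧
    compDim (addInf A) = Cardinal.aleph0 ∧
    -- elementary embeddings
    (∀ m : ℕ, ElemMap A (addFin m A) fun x => x + m) ∧ ElemMap A (addInf A) (fun x => 2 * x) ∧
    -- there are no other countable models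
    ∀ M : FirstOrder.Language.Theory.ModelType.{0, 0, 0} (ThN A), Countable M → ∃ e : M ≃ ℕ,
      (∃ m, ∀ i x y, FirstOrder.Language.Structure.RelMap (L := BinL) (BinRel.r i) ![x, y] ↔
        addFin m A i (e x) (e y)) ∨
      ∀ i x y, FirstOrder.Language.Structure.RelMap (L := BinL) (BinRel.r i) ![x, y] ↔
        addInf A i (e x) (e y) := by
  intro n hn
  obtain ⟨A, hA, hfin, hno, ⟨e, he⟩, hdim⟩ := all_dims n hn
  refine ⟨A, hA, hfin, fun κ hκ => categorical_of_finite A hfin κ hκ, hdim, fun m => ?_, ?_,
    (Pool.Agent.Y688.KC.t_ELEM A hfin).1, (Pool.Agent.Y688.KC.t_ELEM A hfin).2, ?_⟩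
  · rw [Pool.Agent.Y592.KC.t_FIN A m hA hno, hdim]
  · refine le_antisymm (Pool.Agent.Y235.KC.t_UPP _) ?_
    obtain ⟨g, hg⟩ := Pool.Agent.Y346.KC.t_SIMPLE
    obtain ⟨C, hC, hI⟩ := Pool.Agent.Y633.KC.t_COPY A e g hA hno he hg
    exact Pool.Agent.Y901.KC.t_LOW A C hA hno hC hI
  · exact Pool.Agent.Y970.KC.t_MOD A hfin hno

end Pool.Agent.Results.MP_0054e7_lc.AllFiniteDimensions
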